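import Pool.Agent.W353.SP.NatA

/-! Averages over the primes of an extension in terms of the base field. -/

set_option autoImplicit false
set_option linter.unusedSectionVars false

namespace Pool.Agent.Q11.ST

open Filter Topology NumberField IsDedekindDomain
open Pool.Agent.W401.Cheb Pool.Agent.H341R2
open Pool.Agent.W353.SP (EN EN_eq low_EN Bd VX_eq mnN pc_top)
open Pool.Agent.W353.NF (vx fixn fixn_le push_fix)
open Pool.Agent.W353.TP (HX push push_abs_le qh qh_abs res inum sum_push low_kerPrime)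
open Pool.Agent.W385.TT (PA PA_low PA_HS PA_push YH HS pc card_HS gramN pc_nonneg pc_tendsto)
open Pool.Agent.H921R2.TatePole (kerPrime below)
open Pool.Agent.W353.PV (chi_one)
open scoped TensorProduct

section
variable {K : Type} [Field K] [NumberField K]

/-- averages over the homomorphisms to prime fields -/
noncomputable def mH (φ : HX K → ℝ) (Y : ℕ) : ℝ := (∑ x ∈ HS K Y, φ x) / pc Y

theorem mH_add (φ ψ : HX K → ℝ) (Y : ℕ) :
    mH (fun x => φ x + ψ x) Y = mH φ Y + mH ψ Y := by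
  unfold mH
  rw [Finset.sum_add_distrib, add_div]

theorem mH_smul (c : ℝ) (φ : HX K → ℝ) (Y : ℕ) : mH (fun x => c * φ x) Y = c * mH φ Y := by
  unfold mH
  rw [← Finset.mul_sum, mul_div_assoc]

theorem mH_sum {κ : Type*} (S : Finset κ) (φ : κ → HX K → ℝ) (Y : ℕ) :
    mH (fun x => ∑ k ∈ S, φ k x) Y = ∑ k ∈ S, mH (φ k) Y := by
  unfold mH
  rw [Finset.sum_comm, Finset.sum_div]

theorem mH_mono {φ ψ : HX K → ℝ} (h : ∀ x, φ x ≤ ψ x) (Y : ℕ) : mH φ Y ≤ mH ψ Y :=
  div_le_div_of_nonneg_right (Finset.sum_le_sum fun x _ => h x) (pc_nonneg Y)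

theorem mH_one : Tendsto (mH fun _ : HX K => (1 : ℝ)) atTop (𝓝 1) := by
  refine (card_HS (K := K)).congr fun Y => ?_
  unfold mH
  rw [Finset.sum_const, nsmul_eq_mul, mul_one]

theorem mH_abs {φ : HX K → ℝ} {B : ℝ} (h : ∀ x, |φ x| ≤ B) (Y : ℕ) :
    |mH φ Y| ≤ B * mH (fun _ : HX K => (1 : ℝ)) Y := by
  rw [abs_le]
  constructor
  · have h1 := mH_mono (φ := fun _ => -B * 1) (ψ := φ) (fun x => by
      have := (abs_le.1 (h x)).1
      linarith) Y
    rw [mH_smul] at h1
    linarith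
  · have h1 := mH_mono (φ := φ) (ψ := fun _ => B * 1) (fun x => by
      have := (abs_le.1 (h x)).2
      linarith) Y
    rw [mH_smul] at h1
    linarith

theorem mH_bdd {φ : HX K → ℝ} {B : ℝ} (h : ∀ x, |φ x| ≤ B) :
    ∀ᶠ Y in atTop, |mH φ Y| ≤ 2 * |B| := by
  filter_upwards [(mH_one (K := K)).eventually_lt_const (show (1 : ℝ) < 2 by norm_num)] with Y hY
  have h1 := mH_abs (fun x => (h x).trans (le_abs_self B)) Y
  have h2 := abs_nonneg B
  nlinarith

/-- Cauchy's inequality -/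
theorem mH_cs (φ ψ : HX K → ℝ) (Y : ℕ) :
    mH (fun x => φ x * ψ x) Y ^ 2 ≤ mH (fun x => φ x ^ 2) Y * mH (fun x => ψ x ^ 2) Y := by
  unfold mH
  rw [div_pow, div_mul_div_comm, ← sq]
  exact div_le_div_of_nonneg_right (Finset.sum_mul_sq_le_sq_mul_sq _ _ _) (sq_nonneg _)

/-- averages over primes and averages over homomorphisms -/
theorem EN_mH {g : HeightOneSpectrum (𝓞 K) → ℝ} (hg : Bd g) :
    Tendsto (fun Y : ℕ => EN K Y g - mH (fun x => g (vx x)) Y) atTop (𝓝 0) := low_EN hg

theorem mH_fin (S : Finset (HeightOneSpectrum (𝓞 K))) [DecidablePred (· ∈ S)] :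
    Tendsto (mH fun x : HX K => if vx x ∈ S then (1 : ℝ) else 0) atTop (𝓝 0) := by
  classical
  have hg : Bd (K := K) fun v => if v ∈ S then (1 : ℝ) else 0 := ⟨1, fun v => by
    simp only
    split_ifs <;> simp⟩
  have h2 := (mnN K).fin _ hg ((Set.Finite.subset S.finite_toSet) fun v hv => by
    by_contra hcon
    apply hv
    exact if_neg hcon)
  have h3 := h2.sub (EN_mH hg)
  rw [sub_zero] at h3
  refine h3.congr fun Y => ?_
  rw [sub_sub_cancel]

/-- functions agreeing outside finitely many primes -/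
theorem mH_congr_fin (S : Finset (HeightOneSpectrum (𝓞 K))) {φ ψ : HX K → ℝ} {B : ℝ}
    (hB : ∀ x, |φ x - ψ x| ≤ B) (h : ∀ x, vx x ∉ S → φ x = ψ x) :
    Tendsto (fun Y => mH φ Y - mH ψ Y) atTop (𝓝 0) := by
  classical
  have h0 := (mH_fin (K := K) S).const_mul B
  rw [mul_zero] at h0
  refine squeeze_zero_norm (fun Y => ?_) h0
  rw [← mH_smul, Real.norm_eq_abs]
  have e : mH φ Y - mH ψ Y = mH (fun x => φ x + (-1) * ψ x) Y := by
    rw [mH_add, mH_smul]
    ring
  rw [e]
  have h1 : ∀ x, |φ x + (-1) * ψ x| ≤ B * (if vx x ∈ S then (1 : ℝ) else 0) := by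
    intro x
    by_cases hx : vx x ∈ S
    · rw [if_pos hx, mul_one]
      have : φ x + (-1) * ψ x = φ x - ψ x := by ring
      rw [this]
      exact hB x
    · rw [if_neg hx, h x hx]
      have : ψ x + (-1) * ψ x = 0 := by ring
      rw [this, abs_zero, mul_zero]
  rw [abs_le]
  constructor
  · have h2 := mH_mono (φ := fun x => (-1) * (B * (if vx x ∈ S then (1 : ℝ) else 0)))
      (ψ := fun x => φ x + (-1) * ψ x) (fun x => by
        have := (abs_le.1 (h1 x)).1
        linarith) Y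
    rw [mH_smul] at h2
    linarith
  · exact mH_mono (fun x => (abs_le.1 (h1 x)).2) Y

end

section
variable {K F : Type} [Field K] [NumberField K] [Field F] [NumberField F] [Algebra K F]

/-- the number of extensions of a homomorphism -/
noncomputable def cn (K F : Type) [Field K] [NumberField K] [Field F] [NumberField F]
    [Algebra K F] (x : HX K) : ℝ := push K (qh (1 : 𝓞 F)) x

theorem cn_abs (x : HX K) : |cn K F x| ≤ Module.finrank ℚ F := by
  have h := push_abs_le (K := K) (qh_abs (1 : 𝓞 F)) x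
  rwa [mul_one] at h

/-- **Averages over the primes of `F`.** -/
theorem EN_bc {g : HeightOneSpectrum (𝓞 F) → ℝ} {h : HeightOneSpectrum (𝓞 K) → ℝ}
    (hg : Bd g) (hh : Bd h) (S : Finset (HeightOneSpectrum (𝓞 F)))
    (hgh : ∀ w, w ∉ S → ∀ v : HeightOneSpectrum (𝓞 K),
      w.asIdeal.comap (algebraMap (𝓞 K) (𝓞 F)) = v.asIdeal →
      Ideal.absNorm w.asIdeal = Ideal.absNorm v.asIdeal → g w = h v) :
    Tendsto (fun Y : ℕ => EN F Y g - mH (fun x : HX K => h (vx x) * cn K F x) Y) atTop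
      (𝓝 0) := by
  classical
  obtain ⟨B, hB⟩ := hg
  obtain ⟨B', hB'⟩ := hh
  let t : HeightOneSpectrum (𝓞 F) → ℝ := fun w =>
    if hw : ∃ v : HeightOneSpectrum (𝓞 K), w.asIdeal.comap (algebraMap (𝓞 K) (𝓞 F)) = v.asIdeal
      then h hw.choose else 0
  have htb : ∀ w, |t w| ≤ |B'| := by
    intro w
    simp only [t]
    split_ifs with hw
    · exact (hB' _).trans (le_abs_self B')
    · rw [abs_zero]
      exact abs_nonneg _
  have ht : ∀ w (v : HeightOneSpectrum (𝓞 K)),
      w.asIdeal.comap (algebraMap (𝓞 K) (𝓞 F)) = v.asIdeal → t w = h v := by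
    intro w v hv
    have hw : ∃ v : HeightOneSpectrum (𝓞 K), w.asIdeal.comap (algebraMap (𝓞 K) (𝓞 F)) =
      v.asIdeal := ⟨v, hv⟩
    simp only [t]
    rw [dif_pos hw]
    congr 1
    exact HeightOneSpectrum.ext (hw.choose_spec.symm.trans hv)
  have hcomap : ∀ (p : Nat.Primes) (ψ : 𝓞 F →+* ZMod (p : ℕ)),
      (kerPrime p ψ).1.1.asIdeal.comap (algebraMap (𝓞 K) (𝓞 F)) =
        (kerPrime p (res K ψ)).1.1.asIdeal := by
    intro p ψ
    ext z
    rfl
  have hnorm : ∀ (p : Nat.Primes) (ψ : 𝓞 F →+* ZMod (p : ℕ)),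
      Ideal.absNorm (kerPrime p ψ).1.1.asIdeal =
        Ideal.absNorm (kerPrime p (res K ψ)).1.1.asIdeal := by
    intro p ψ
    have key : ∀ {L : Type} [Field L] [NumberField L] (p : Nat.Primes)
        (u : 𝓞 L →+* ZMod (p : ℕ)), Ideal.absNorm (kerPrime p u).1.1.asIdeal = (p : ℕ) := by
      intro L _ _ p u
      have h1 := (Pool.Agent.H921R2.TatePole.nm_eq (kerPrime p u).1.1).1
      rw [(kerPrime p u).1.2, (kerPrime p u).2, pow_one] at h1
      exact h1
    rw [key, key]
  -- over the homomorphisms of `F`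
  have h1 := EN_mH (K := F) (g := g) ⟨B, hB⟩
  have h2 : Tendsto (fun Y => mH (fun x : HX F => g (vx x)) Y -
      mH (fun x : HX F => t (vx x)) Y) atTop (𝓝 0) := by
    refine mH_congr_fin S (B := |B| + |B'|) (fun x => ?_) fun x hx => ?_
    · refine (abs_sub _ _).trans (add_le_add ((hB _).trans (le_abs_self B)) (htb _))
    · have h3 := hgh (vx x) hx (kerPrime x.1 (res K x.2)).1.1 (hcomap x.1 x.2)
        (hnorm x.1 x.2)
      rw [h3, ht (vx x) _ (hcomap x.1 x.2)]
  have h3 : ∀ Y, mH (fun x : HX F => t (vx x)) Y =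
      mH (fun x : HX K => h (vx x) * cn K F x) Y := by
    intro Y
    have h4 := PA_push (K := K) (F := F) ({()} : Finset Unit)
      (fun _ x => h (vx x)) (fun _ => (1 : 𝓞 F)) (fun _ v => t v)
      (fun _ _ p ψ => ht _ _ (hcomap p ψ)) Y
    have e2 : (fun v : HeightOneSpectrum (𝓞 F) => ∑ _j ∈ ({()} : Finset Unit),
        t v * (chi (1 : 𝓞 F) v : ℝ)) = fun v => t v := by
      funext v
      rw [Finset.sum_singleton, chi_one, Int.cast_one, mul_one]
    rw [e2] at h4
    have e3 : PA (low t) Y = mH (fun x : HX F => t (vx x)) Y := by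
      have h5 := PA_HS (K := F) (fun x => t (vx x)) Y
      unfold mH
      rw [← h5]
      congr 1
      funext p
      exact low_kerPrime t p
    rw [← e3, h4]
    unfold YH mH
    congr 1
    refine Finset.sum_congr rfl fun x _ => ?_
    rw [Finset.sum_singleton]
    rfl
  have h5 := h1.add h2
  rw [add_zero] at h5
  refine h5.congr fun Y => ?_
  rw [h3]
  ring

/-- the Gram matrix -/
theorem gram {F' : Type} [Field F'] [NumberField F'] [Algebra K F'] :
    Tendsto (mH fun x : HX K => cn K F x * cn K F' x) atTop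
      (𝓝 (Nat.card (MaximalSpectrum (F ⊗[K] F')) : ℝ)) := by
  have h := gramN (K := K) (F := F) (F' := F') (D := 1) (D' := 1) one_ne_zero one_ne_zero
  have e1 : inum K F F' ((1 : 𝓞 F) : F) ((1 : 𝓞 F') : F') =
      Nat.card (MaximalSpectrum (F ⊗[K] F')) := by
    unfold Pool.Agent.W353.TP.inum
    refine Nat.card_congr (Equiv.subtypeUnivEquiv fun m => ?_)
    have : Ideal.Quotient.mk m.asIdeal (((1 : 𝓞 F) : F) ⊗ₜ[K] ((1 : 𝓞 F') : F')) = 1 := by
      change Ideal.Quotient.mk m.asIdeal ((1 : F) ⊗ₜ[K] (1 : F')) = 1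
      rw [← Algebra.TensorProduct.one_def, map_one]
    rw [this]
    exact IsSquare.one
  rw [e1] at h
  refine h.congr fun Y => ?_
  exact PA_HS (K := K) (fun x => cn K F x * cn K F' x) Y

theorem cn_self (x : HX K) : cn K K x = 1 := by
  classical
  unfold cn push
  have h1 : (Finset.univ.filter fun ψ : 𝓞 K →+* ZMod (x.1 : ℕ) => res K ψ = x.2) = {x.2} := by
    ext ψ
    rw [Finset.mem_filter, Finset.mem_singleton]
    have e : res K ψ = ψ := by
      refine RingHom.ext fun z => ?_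
      change ψ (algebraMap (𝓞 K) (𝓞 K) z) = ψ z
      rfl
    rw [e]
    exact ⟨fun h => h.2, fun h => ⟨Finset.mem_univ _, h⟩⟩
  rw [h1, Finset.sum_singleton]
  have : Fact (x.1 : ℕ).Prime := ⟨x.1.2⟩
  rw [Pool.Agent.W353.TP.qh_eq, map_one, map_one]
  norm_num

theorem card_self : Nat.card (MaximalSpectrum (K ⊗[K] F)) = 1 := by
  have e : K ⊗[K] F ≃ₐ[K] F := Algebra.TensorProduct.lid K F
  have hf : IsField (K ⊗[K] F) := e.toMulEquiv.isField (Field.toIsField F)
  rw [Nat.card_eq_one_iff_exists]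
  let _ := hf.toField
  refine ⟨⟨⊥, Ideal.bot_isMaximal⟩, fun m => ?_⟩
  refine MaximalSpectrum.ext ?_
  have h1 : (⊥ : Ideal (K ⊗[K] F)).IsMaximal := Ideal.bot_isMaximal
  exact (h1.eq_of_le m.isMaximal.ne_top bot_le).symm

theorem gram_one : Tendsto (mH fun x : HX K => cn K F x) atTop (𝓝 1) := by
  have h := gram (K := K) (F := K) (F' := F)
  rw [card_self, Nat.cast_one] at h
  refine h.congr fun Y => ?_
  congr 1
  funext x
  rw [cn_self, one_mul]

end

end Pool.Agent.Q11.ST
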