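import Pool.Agent.Q11.ST.Base

/-! Bessel inequalities for averages over the primes of several extensions. -/

set_option autoImplicit false
set_option linter.unusedSectionVars false

namespace Pool.Agent.Q11.ST

open Filter Topology NumberField IsDedekindDomain
open Pool.Agent.W401.Cheb Pool.Agent.H341R2
open Pool.Agent.W353.SP (EN EN_eq low_EN Bd VX_eq mnN pc_top)
open Pool.Agent.W353.NF (vx fixn fixn_le push_fix)
open Pool.Agent.W353.TP (HX push push_abs_le qh qh_abs res inum sum_push low_kerPrime)
open Pool.Agent.W385.TT (PA PA_low PA_HS PA_push YH HS pc card_HS gramN pc_nonneg pc_tendsto)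
open scoped TensorProduct

section
variable {K : Type} [Field K] [NumberField K] {T : HX K → ℝ} {B : ℝ}

/-- Bessel's inequality for asymptotically orthogonal functions -/
theorem bes {ι : Type} [Fintype ι] [DecidableEq ι] (W : ι → HX K → ℝ) (s : ι → ℝ)
    (hW : ∀ i j, Tendsto (mH fun x => W i x * W j x) atTop (𝓝 (if i = j then s i else 0)))
    (hT : ∀ x, |T x| ≤ B) {C : ι → ℝ} (hC : ∀ i x, |W i x| ≤ C i) {η : ℝ} (hη : 0 < η) :
    ∀ᶠ Y in atTop, ∑ i, (mH (fun x => T x * W i x) Y) ^ 2 / s i ≤
      mH (fun x => T x ^ 2) Y + η := by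
  classical
  have hb : ∀ i, ∃ A : ℝ, ∀ᶠ Y in atTop, |mH (fun x => T x * W i x) Y / s i| ≤ A := by
    intro i
    refine ⟨2 * |B * C i| / |s i|, ?_⟩
    filter_upwards [mH_bdd (φ := fun x => T x * W i x) (B := B * C i) (fun x => by
      rw [abs_mul]
      exact mul_le_mul (hT x) (hC i x) (abs_nonneg _) ((abs_nonneg _).trans (hT x)))] with Y hY
    rw [abs_div]
    exact div_le_div_of_nonneg_right hY (abs_nonneg _)
  choose A hA using hb
  have hA' : ∀ᶠ Y in atTop, ∀ i, |mH (fun x => T x * W i x) Y / s i| ≤ |A i| :=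
    eventually_all.2 fun i => (hA i).mono fun Y hY => hY.trans (le_abs_self _)
  have h1 : Tendsto (fun Y => ∑ i, ∑ j, |A i| * |A j| *
      |mH (fun x => W i x * W j x) Y - (if i = j then s i else 0)|) atTop (𝓝 0) := by
    have h2 : Tendsto (fun Y => ∑ i, ∑ j, |A i| * |A j| *
      |mH (fun x => W i x * W j x) Y - (if i = j then s i else 0)|) atTop
      (𝓝 (∑ _i : ι, ∑ _j : ι, 0)) := by
      refine tendsto_finsetSum _ fun i _ => tendsto_finsetSum _ fun j _ => ?_
      have h3 := (((hW i j).sub_const (if i = j then s i else 0)).abs).const_mul (|A i| * |A j|)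
      rwa [sub_self, abs_zero, mul_zero] at h3
    simpa using h2
  filter_upwards [hA', h1.eventually_lt_const hη] with Y hY hY'
  set b : ι → ℝ := fun i => mH (fun x => T x * W i x) Y / s i with hbd
  have h2 : 0 ≤ mH (fun x => (T x - ∑ i, b i * W i x) ^ 2) Y := by
    have := mH_mono (φ := fun _ => 0) (ψ := fun x => (T x - ∑ i, b i * W i x) ^ 2)
      (fun x => sq_nonneg _) Y
    have h0 : mH (fun _ : HX K => (0 : ℝ)) Y = 0 := by
      unfold mH
      rw [Finset.sum_const_zero, zero_div]
    rwa [h0] at this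
  have h3 : mH (fun x => (T x - ∑ i, b i * W i x) ^ 2) Y =
      mH (fun x => T x ^ 2) Y - 2 * ∑ i, b i * mH (fun x => T x * W i x) Y +
        ∑ i, ∑ j, b i * b j * mH (fun x => W i x * W j x) Y := by
    have e1 : (fun x => (T x - ∑ i, b i * W i x) ^ 2) = fun x => T x ^ 2 +
        (∑ i, (-2 * b i) * (T x * W i x) + ∑ i, ∑ j, (b i * b j) * (W i x * W j x)) := by
      funext x
      have e2 : (∑ i, b i * W i x) ^ 2 = ∑ i, ∑ j, (b i * b j) * (W i x * W j x) := by
        rw [sq, Finset.sum_mul_sum]
        exact Finset.sum_congr rfl fun i _ => Finset.sum_congr rfl fun j _ => by ring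
      have e3 : ∑ i, (-2 * b i) * (T x * W i x) = -2 * T x * ∑ i, b i * W i x := by
        rw [Finset.mul_sum]
        exact Finset.sum_congr rfl fun i _ => by ring
      rw [sub_sq, e2, e3]
      ring
    rw [e1, mH_add, mH_add, mH_sum, mH_sum]
    have e4 : ∀ i, mH (fun x => (-2 * b i) * (T x * W i x)) Y =
        (-2 * b i) * mH (fun x => T x * W i x) Y := fun i => mH_smul _ _ _
    have e5 : ∀ i, mH (fun x => ∑ j, (b i * b j) * (W i x * W j x)) Y =
        ∑ j, b i * b j * mH (fun x => W i x * W j x) Y := by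
      intro i
      rw [mH_sum]
      exact Finset.sum_congr rfl fun j _ => mH_smul _ _ _
    rw [Finset.sum_congr rfl fun i _ => e4 i, Finset.sum_congr rfl fun i _ => e5 i]
    have e6 : ∑ i, (-2 * b i) * mH (fun x => T x * W i x) Y =
        -(2 * ∑ i, b i * mH (fun x => T x * W i x) Y) := by
      rw [Finset.mul_sum, ← Finset.sum_neg_distrib]
      exact Finset.sum_congr rfl fun i _ => by ring
    rw [e6]
    ring
  have h4 : ∑ i, ∑ j, b i * b j * mH (fun x => W i x * W j x) Y ≤
      ∑ i, b i ^ 2 * s i + η := by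
    have e1 : ∑ i, ∑ j, b i * b j * mH (fun x => W i x * W j x) Y =
        ∑ i, b i ^ 2 * s i + ∑ i, ∑ j, b i * b j *
          (mH (fun x => W i x * W j x) Y - (if i = j then s i else 0)) := by
      rw [← Finset.sum_add_distrib]
      refine Finset.sum_congr rfl fun i _ => ?_
      have e2 : b i ^ 2 * s i = ∑ j, b i * b j * (if i = j then s i else 0) := by
        rw [Finset.sum_eq_single i]
        · rw [if_pos rfl]
          ring
        · intro j _ hj
          rw [if_neg (Ne.symm hj), mul_zero]
        · intro h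
          exact absurd (Finset.mem_univ _) h
      rw [e2, ← Finset.sum_add_distrib]
      exact Finset.sum_congr rfl fun j _ => by ring
    rw [e1]
    have e3 : ∑ i, ∑ j, b i * b j *
          (mH (fun x => W i x * W j x) Y - (if i = j then s i else 0)) ≤
        ∑ i, ∑ j, |A i| * |A j| *
      |mH (fun x => W i x * W j x) Y - (if i = j then s i else 0)| := by
      refine Finset.sum_le_sum fun i _ => Finset.sum_le_sum fun j _ => ?_
      refine (le_abs_self _).trans ?_
      rw [abs_mul, abs_mul]
      exact mul_le_mul_of_nonneg_right (mul_le_mul (hY i) (hY j) (abs_nonneg _)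
        (abs_nonneg _)) (abs_nonneg _)
    linarith
  have h5 : ∀ i, b i * mH (fun x => T x * W i x) Y = (mH (fun x => T x * W i x) Y) ^ 2 / s i := by
    intro i
    rw [hbd]
    ring
  have h6 : ∀ i, b i ^ 2 * s i = (mH (fun x => T x * W i x) Y) ^ 2 / s i := by
    intro i
    rw [hbd]
    by_cases hs : s i = 0
    · simp [hs]
    · field_simp
  rw [Finset.sum_congr rfl fun i _ => h5 i] at h3
  rw [Finset.sum_congr rfl fun i _ => h6 i] at h4
  linarith

variable {κ : Type} [Fintype κ] (F : κ → Type) [∀ k, Field (F k)] [∀ k, NumberField (F k)]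
  [∀ k, Algebra K (F k)]

variable (K) in
/-- the quadratic form -/
noncomputable def fm (c : κ → ℝ) : ℝ :=
  ∑ i, ∑ j, c i * c j * (Nat.card (MaximalSpectrum (F i ⊗[K] F j)) : ℝ)

theorem mH_form (c : κ → ℝ) :
    Tendsto (mH fun x : HX K => (∑ k, c k * cn K (F k) x) ^ 2) atTop (𝓝 (fm K F c)) := by
  have h1 : Tendsto (fun Y => ∑ i, ∑ j, c i * c j *
      mH (fun x : HX K => cn K (F i) x * cn K (F j) x) Y) atTop (𝓝 (fm K F c)) :=
    tendsto_finsetSum _ fun i _ => tendsto_finsetSum _ fun j _ => gram.const_mul _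
  refine h1.congr fun Y => ?_
  have e1 : (fun x : HX K => (∑ k, c k * cn K (F k) x) ^ 2) = fun x => ∑ i, ∑ j, (c i * c j) *
      (cn K (F i) x * cn K (F j) x) := by
    funext x
    rw [sq, Finset.sum_mul_sum]
    exact Finset.sum_congr rfl fun i _ => Finset.sum_congr rfl fun j _ => by ring
  rw [e1, mH_sum]
  refine Finset.sum_congr rfl fun i _ => ?_
  rw [mH_sum]
  exact Finset.sum_congr rfl fun j _ => (mH_smul _ _ _).symm

/-- Cauchy's inequality with a known mean square -/
theorem ineqW (hT : ∀ x, |T x| ≤ B) {W : HX K → ℝ} {m : ℝ}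
    (hW : Tendsto (mH fun x => W x ^ 2) atTop (𝓝 m)) {η : ℝ} (hη : 0 < η) :
    ∀ᶠ Y in atTop, (mH (fun x => T x * W x) Y) ^ 2 ≤ mH (fun x => T x ^ 2) Y * m + η := by
  have h1 : ∀ x, |T x ^ 2| ≤ B ^ 2 := by
    intro x
    rw [abs_pow]
    exact pow_le_pow_left₀ (abs_nonneg _) (hT x) 2
  have hδ : 0 < η / (2 * |B ^ 2| + 1) := by positivity
  filter_upwards [mH_bdd h1, hW.eventually_lt_const
    (show m < m + η / (2 * |B ^ 2| + 1) by linarith)] with Y h2 h3
  have h4 := mH_cs T W Y
  have h6 : 0 ≤ mH (fun x => T x ^ 2) Y := by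
    have := mH_mono (φ := fun _ => 0) (ψ := fun x => T x ^ 2) (fun x => sq_nonneg _) Y
    have h0 : mH (fun _ : HX K => (0 : ℝ)) Y = 0 := by
      unfold mH
      rw [Finset.sum_const_zero, zero_div]
    rwa [h0] at this
  refine h4.trans ?_
  refine (mul_le_mul_of_nonneg_left h3.le h6).trans ?_
  rw [mul_add]
  have h7 : mH (fun x => T x ^ 2) Y * (η / (2 * |B ^ 2| + 1)) ≤ η := by
    have h8 := (le_abs_self _).trans h2
    calc mH (fun x => T x ^ 2) Y * (η / (2 * |B ^ 2| + 1)) ≤
        (2 * |B ^ 2| + 1) * (η / (2 * |B ^ 2| + 1)) :=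
          mul_le_mul_of_nonneg_right (by linarith) hδ.le
      _ = η := by field_simp
  linarith

/-- **The inequality for a linear combination of averages.** -/
theorem ineq (hT : ∀ x, |T x| ≤ B) (c : κ → ℝ) {η : ℝ} (hη : 0 < η) :
    ∀ᶠ Y in atTop, (∑ k, c k * mH (fun x => T x * cn K (F k) x) Y) ^ 2 ≤
      mH (fun x => T x ^ 2) Y * fm K F c + η := by
  filter_upwards [ineqW hT (mH_form F c) hη] with Y h4
  have h5 : mH (fun x => T x * ∑ k, c k * cn K (F k) x) Y =
      ∑ k, c k * mH (fun x => T x * cn K (F k) x) Y := by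
    have e1 : (fun x => T x * ∑ k, c k * cn K (F k) x) = fun x =>
        ∑ k, c k * (T x * cn K (F k) x) := by
      funext x
      rw [Finset.mul_sum]
      exact Finset.sum_congr rfl fun k _ => by ring
    rw [e1, mH_sum]
    exact Finset.sum_congr rfl fun k _ => mH_smul _ _ _
  rwa [h5] at h4

/-- **Bessel's inequality for disjoint extensions.** -/
theorem bessel (hT : ∀ x, |T x| ≤ B)
    (hdis : ∀ i j, i ≠ j → Nat.card (MaximalSpectrum (F i ⊗[K] F j)) = 1) {η : ℝ} (hη : 0 < η) :
    ∀ᶠ Y in atTop, (mH T Y) ^ 2 + ∑ k, (mH (fun x => T x * cn K (F k) x) Y - mH T Y) ^ 2 /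
      ((Nat.card (MaximalSpectrum (F k ⊗[K] F k)) : ℝ) - 1) ≤ mH (fun x => T x ^ 2) Y + η := by
  classical
  let W : Option κ → HX K → ℝ := fun o x => o.elim 1 fun k => cn K (F k) x - 1
  let s : Option κ → ℝ := fun o => o.elim 1 fun k =>
    (Nat.card (MaximalSpectrum (F k ⊗[K] F k)) : ℝ) - 1
  have hW : ∀ i j, Tendsto (mH fun x => W i x * W j x) atTop (𝓝 (if i = j then s i else 0)) := by
    rintro (_ | i) (_ | j)
    · rw [if_pos rfl]
      refine (mH_one (K := K)).congr fun Y => ?_
      congr 1
      funext x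
      change (1 : ℝ) = 1 * 1
      rw [mul_one]
    · rw [if_neg (by simp)]
      have h1 := (gram_one (K := K) (F := F j)).sub (mH_one (K := K))
      rw [sub_self] at h1
      refine h1.congr fun Y => ?_
      have e : (fun x => W none x * W (some j) x) = fun x => cn K (F j) x + (-1) * 1 := by
        funext x
        change 1 * (cn K (F j) x - 1) = _
        ring
      rw [e, mH_add, mH_smul]
      ring
    · rw [if_neg (by simp)]
      have h1 := (gram_one (K := K) (F := F i)).sub (mH_one (K := K))
      rw [sub_self] at h1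
      refine h1.congr fun Y => ?_
      have e : (fun x => W (some i) x * W none x) = fun x => cn K (F i) x + (-1) * 1 := by
        funext x
        change (cn K (F i) x - 1) * 1 = _
        ring
      rw [e, mH_add, mH_smul]
      ring
    · have h1 := (((gram (K := K) (F := F i) (F' := F j)).sub
        (gram_one (K := K) (F := F i))).sub (gram_one (K := K) (F := F j))).add (mH_one (K := K))
      have e : (fun x => W (some i) x * W (some j) x) = fun x =>
          cn K (F i) x * cn K (F j) x + ((-1) * cn K (F i) x + ((-1) * cn K (F j) x + 1)) := by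
        funext x
        change (cn K (F i) x - 1) * (cn K (F j) x - 1) = _
        ring
      have h2 : ((Nat.card (MaximalSpectrum (F i ⊗[K] F j)) : ℝ) - 1 - 1 + 1) =
          (if some i = some j then s (some i) else 0) := by
        by_cases hij : i = j
        · subst hij
          rw [if_pos rfl]
          change _ = (Nat.card (MaximalSpectrum (F i ⊗[K] F i)) : ℝ) - 1
          ring
        · rw [if_neg (fun h => hij (Option.some_injective _ h)), hdis i j hij]
          norm_num
      rw [h2] at h1
      refine h1.congr fun Y => ?_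
      rw [e, mH_add, mH_add, mH_add, mH_smul, mH_smul]
      ring
  have hC : ∀ i x, |W i x| ≤ Option.elim i (1 : ℝ) fun k => (Module.finrank ℚ (F k) : ℝ) + 1 := by
    rintro (_ | i) x
    · change |(1 : ℝ)| ≤ 1
      rw [abs_one]
    · change |cn K (F i) x - 1| ≤ (Module.finrank ℚ (F i) : ℝ) + 1
      refine (abs_sub _ _).trans (add_le_add (cn_abs x) ?_)
      rw [abs_one]
  have h1 := bes W s hW hT hC hη
  filter_upwards [h1] with Y hY
  rw [Fintype.sum_option] at hY
  have e1 : mH (fun x => T x * W none x) Y = mH T Y := by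
    congr 1
    funext x
    change T x * 1 = T x
    rw [mul_one]
  have e2 : ∀ k, mH (fun x => T x * W (some k) x) Y =
      mH (fun x => T x * cn K (F k) x) Y - mH T Y := by
    intro k
    have e : (fun x => T x * W (some k) x) = fun x => T x * cn K (F k) x + (-1) * T x := by
      funext x
      change T x * (cn K (F k) x - 1) = _
      ring
    rw [e, mH_add, mH_smul]
    ring
  have e3 : s none = 1 := rfl
  rw [e1, e3, div_one] at hY
  refine le_trans (le_of_eq ?_) hY
  congr 1
  refine Finset.sum_congr rfl fun k _ => ?_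
  rw [e2]
  rfl

end

end Pool.Agent.Q11.ST
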