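import Pool.Agent.Q11.ST.Bes
import Mathlib.MeasureTheory.Integral.Bochner.Basic

/-! Descent of equidistribution from extensions: proofs. -/

set_option autoImplicit false
set_option linter.unusedSectionVars false

namespace Pool.Agent.Q11.ST

open Filter Topology NumberField IsDedekindDomain MeasureTheory
open Pool.Agent.W401.Cheb Pool.Agent.H341R2
open Pool.Agent.W353.SP (EN EN_eq low_EN Bd VX_eq mnN pc_top)
open Pool.Agent.W353.NF (vx fixn fixn_le push_fix)
open Pool.Agent.W353.TP (HX push push_abs_le qh qh_abs res inum sum_push low_kerPrime)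
open Pool.Agent.W385.TT (PA PA_low PA_HS PA_push YH HS pc card_HS gramN pc_nonneg pc_tendsto)
open Pool.Agent.H126U (VX mem_VX)
open scoped TensorProduct

section
variable {F : Type} [Field F] [NumberField F]

/-- The average of `φ` over the primes of `F` of norm at most `N`. -/
noncomputable def avg (φ : HeightOneSpectrum (𝓞 F) → ℝ) (N : ℕ) : ℝ :=
  (∑ᶠ w : {w : HeightOneSpectrum (𝓞 F) // Ideal.absNorm w.asIdeal ≤ N}, φ w.1) /
    (Nat.card {w : HeightOneSpectrum (𝓞 F) // Ideal.absNorm w.asIdeal ≤ N} : ℝ)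

/-- The classes of the `y w` are equidistributed for `μ`. -/
def Equidistributed {G : Type} [Group G] [TopologicalSpace G] [MeasurableSpace G]
    (y : HeightOneSpectrum (𝓞 F) → G) (μ : Measure G) : Prop :=
  ∀ f : G → ℝ, Continuous f → (∀ g h, f (h * g * h⁻¹) = f g) →
    Tendsto (avg fun w => f (y w)) atTop (𝓝 (∫ g, f g ∂μ))

/-- `y w` is a conjugate of `x v` for all but finitely many primes `w` of `F` of residue degree one over
the prime `v` of `K` below `w`. -/
def BaseChange {K : Type} [Field K] [NumberField K] [Algebra K F] {G : Type} [Group G]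
    (x : HeightOneSpectrum (𝓞 K) → G) (y : HeightOneSpectrum (𝓞 F) → G) : Prop :=
  ∃ S : Finset (HeightOneSpectrum (𝓞 F)), ∀ w, w ∉ S → ∀ v : HeightOneSpectrum (𝓞 K),
    w.asIdeal.comap (algebraMap (𝓞 K) (𝓞 F)) = v.asIdeal →
    Ideal.absNorm w.asIdeal = Ideal.absNorm v.asIdeal → ∃ h : G, y w = h * x v * h⁻¹

/-- The number of fields whose product is `F ⊗_K F'`. -/
noncomputable def numFields (K F F' : Type) [Field K] [Field F] [Field F'] [Algebra K F]
    [Algebra K F'] : ℕ := Nat.card (MaximalSpectrum (F ⊗[K] F'))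

theorem avg_eq (φ : HeightOneSpectrum (𝓞 F) → ℝ) (N : ℕ) :
    avg φ N = (∑ v ∈ VX F N, φ v) / ((VX F N).card : ℝ) := by
  classical
  have hs : ∀ v, v ∈ VX F N ↔ Ideal.absNorm v.asIdeal ≤ N := fun v => mem_VX F
  let e : {v : HeightOneSpectrum (𝓞 F) // Ideal.absNorm v.asIdeal ≤ N} ≃ (VX F N) :=
    Equiv.subtypeEquivRight fun v => (hs v).symm
  have hfin : Finite {v : HeightOneSpectrum (𝓞 F) // Ideal.absNorm v.asIdeal ≤ N} :=
    Finite.of_equiv _ e.symm
  unfold avg
  have h1 : (∑ᶠ v : {v : HeightOneSpectrum (𝓞 F) // Ideal.absNorm v.asIdeal ≤ N}, φ v.1) =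
      ∑ v ∈ VX F N, φ v := by
    rw [← Finset.sum_coe_sort, ← finsum_eq_sum_of_fintype, ← finsum_comp_equiv e]
    rfl
  have h2 : Nat.card {v : HeightOneSpectrum (𝓞 F) // Ideal.absNorm v.asIdeal ≤ N} =
      (VX F N).card := by
    rw [Nat.card_congr e, Nat.card_eq_fintype_card, Fintype.card_coe]
  rw [h1, h2]

/-- the two averages over primes -/
theorem avg_EN {φ : HeightOneSpectrum (𝓞 F) → ℝ} (hφ : Bd φ) :
    Tendsto (fun N => avg φ N - EN F N φ) atTop (𝓝 0) := by
  classical
  obtain ⟨B, hB⟩ := hφ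
  have h6 : Tendsto (fun X : ℕ => |B| * |1 - ((VX F X).card : ℝ) / pc X|) atTop (𝓝 0) := by
    have h7 : Tendsto (fun X : ℕ => ((VX F X).card : ℝ) / pc X) atTop (𝓝 1) :=
      Pool.Agent.H126U.card_VX
    have h8 := ((h7.const_sub 1).abs).const_mul |B|
    simpa using h8
  refine squeeze_zero_norm (fun X => ?_) h6
  rw [avg_eq, EN_eq]
  by_cases hX : ((VX F X).card : ℝ) = 0
  · have h0 : VX F X = ∅ := Finset.card_eq_zero.1 (by exact_mod_cast hX)
    rw [h0]
    simp
  · have hX0 : 0 < ((VX F X).card : ℝ) := lt_of_le_of_ne (Nat.cast_nonneg _) (Ne.symm hX)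
    have e1 : (∑ v ∈ VX F X, φ v) / ((VX F X).card : ℝ) - (∑ v ∈ VX F X, φ v) / pc X =
        (∑ v ∈ VX F X, φ v) / ((VX F X).card : ℝ) * (1 - ((VX F X).card : ℝ) / pc X) := by
      field_simp
    rw [e1, Real.norm_eq_abs, abs_mul]
    refine mul_le_mul_of_nonneg_right ?_ (abs_nonneg _)
    rw [abs_div, abs_of_pos hX0, div_le_iff₀ hX0]
    refine (Finset.abs_sum_le_sum_abs _ _).trans ?_
    refine (Finset.sum_le_sum fun v _ => (hB v).trans (le_abs_self B)).trans ?_
    rw [Finset.sum_const, nsmul_eq_mul, mul_comm]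

end

section
variable {K : Type} [Field K] [NumberField K]
variable {G : Type} [Group G] [TopologicalSpace G] [CompactSpace G]
  {x : HeightOneSpectrum (𝓞 K) → G} {f : G → ℝ}

theorem bdf (hf : Continuous f) : ∃ B : ℝ, ∀ g, |f g| ≤ B := by
  obtain ⟨C, hC⟩ := (isCompact_univ (X := G)).exists_bound_of_continuousOn hf.continuousOn
  exact ⟨C, fun g => hC g (Set.mem_univ _)⟩

variable {F : Type} [Field F] [NumberField F] [Algebra K F] {y : HeightOneSpectrum (𝓞 F) → G}

/-- averages over `F` as averages over the homomorphisms from `𝓞 K` -/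
theorem avg_bc (hy : BaseChange x y) (hf : Continuous f) (hcl : ∀ g h, f (h * g * h⁻¹) = f g) :
    Tendsto (fun N => avg (fun w => f (y w)) N -
      mH (fun u : HX K => f (x (vx u)) * cn K F u) N) atTop (𝓝 0) := by
  obtain ⟨B, hB⟩ := bdf hf
  obtain ⟨S, hS⟩ := hy
  have h1 := EN_bc (K := K) (F := F) (g := fun w => f (y w)) (h := fun v => f (x v))
    ⟨B, fun w => hB _⟩ ⟨B, fun w => hB _⟩ S (fun w hw v hv hn => by
      obtain ⟨h, hh⟩ := hS w hw v hv hn
      rw [hh, hcl])
  have h2 := avg_EN (F := F) (φ := fun w => f (y w)) ⟨B, fun w => hB _⟩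
  have h3 := h2.add h1
  rw [add_zero] at h3
  refine h3.congr fun N => ?_
  ring

theorem avg_K {g : HeightOneSpectrum (𝓞 K) → ℝ} (hg : Bd g) :
    Tendsto (fun N => avg g N - mH (fun u : HX K => g (vx u)) N) atTop (𝓝 0) := by
  have h3 := (avg_EN hg).add (EN_mH hg)
  rw [add_zero] at h3
  refine h3.congr fun N => ?_
  ring

theorem avg_bdd {g : HeightOneSpectrum (𝓞 F) → ℝ} {B : ℝ} (hg : ∀ v, |g v| ≤ B) (N : ℕ) :
    |avg g N| ≤ |B| := by
  classical
  rw [avg_eq]
  by_cases hX : ((VX F N).card : ℝ) = 0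
  · rw [hX, div_zero, abs_zero]
    exact abs_nonneg _
  · have hX0 : 0 < ((VX F N).card : ℝ) := lt_of_le_of_ne (Nat.cast_nonneg _) (Ne.symm hX)
    rw [abs_div, abs_of_pos hX0, div_le_iff₀ hX0]
    refine (Finset.abs_sum_le_sum_abs _ _).trans ?_
    refine (Finset.sum_le_sum fun v _ => (hg v).trans (le_abs_self B)).trans ?_
    rw [Finset.sum_const, nsmul_eq_mul, mul_comm]

/-- squares of sequences with difference tending to zero -/
theorem sq_sub_tendsto {a b : ℕ → ℝ} (h : Tendsto (fun n => a n - b n) atTop (𝓝 0)) {C : ℝ}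
    (ha : ∀ n, |a n| ≤ C) : Tendsto (fun n => a n ^ 2 - b n ^ 2) atTop (𝓝 0) := by
  have h1 : Tendsto (fun n => |a n - b n| * (2 * |C| + |a n - b n|)) atTop (𝓝 0) := by
    have h2 := h.abs
    rw [abs_zero] at h2
    have h3 := h2.mul (h2.const_add (2 * |C|))
    rwa [zero_mul] at h3
  refine squeeze_zero_norm (fun n => ?_) h1
  have e : a n ^ 2 - b n ^ 2 = (a n - b n) * (2 * a n - (a n - b n)) := by ring
  rw [e, Real.norm_eq_abs, abs_mul]
  refine mul_le_mul_of_nonneg_left ?_ (abs_nonneg _)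
  refine (abs_sub _ _).trans (add_le_add ?_ le_rfl)
  rw [abs_mul, abs_two]
  exact mul_le_mul_of_nonneg_left ((ha n).trans (le_abs_self C)) (by norm_num)

end

section
variable {K : Type} [Field K] [NumberField K]
variable {G : Type} [Group G] [TopologicalSpace G] [CompactSpace G]
  {x : HeightOneSpectrum (𝓞 K) → G} {f : G → ℝ}
variable {κ : Type} [Fintype κ] {F : κ → Type} [∀ k, Field (F k)] [∀ k, NumberField (F k)]
  [∀ k, Algebra K (F k)] {y : ∀ k, HeightOneSpectrum (𝓞 (F k)) → G}

/-- **The inequality for a linear combination.** -/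
theorem lin (hy : ∀ k, BaseChange x (y k)) (hf : Continuous f)
    (hcl : ∀ g h, f (h * g * h⁻¹) = f g) (c : κ → ℝ) {η : ℝ} (hη : 0 < η) :
    ∀ᶠ N in atTop, (∑ k, c k * avg (fun w => f (y k w)) N) ^ 2 ≤
      avg (fun v => f (x v) ^ 2) N * fm K F c + η := by
  obtain ⟨B, hB⟩ := bdf hf
  have h1 := ineq (T := fun u : HX K => f (x (vx u))) (B := B) F (fun u => hB _) c
    (show 0 < η / 2 by positivity)
  have h2 : Tendsto (fun N => (∑ k, c k * avg (fun w => f (y k w)) N) ^ 2 -
      (∑ k, c k * mH (fun u : HX K => f (x (vx u)) * cn K (F k) u) N) ^ 2) atTop (𝓝 0) := by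
    refine sq_sub_tendsto (C := ∑ k, |c k| * |B|) ?_ fun N => ?_
    · have h3 : Tendsto (fun N => ∑ k, c k * (avg (fun w => f (y k w)) N -
          mH (fun u : HX K => f (x (vx u)) * cn K (F k) u) N)) atTop (𝓝 (∑ k, c k * 0)) :=
        tendsto_finsetSum _ fun k _ => (avg_bc (hy k) hf hcl).const_mul (c k)
      simp only [mul_zero, Finset.sum_const_zero] at h3
      refine h3.congr fun N => ?_
      rw [← Finset.sum_sub_distrib]
      exact Finset.sum_congr rfl fun k _ => by ring
    · refine (Finset.abs_sum_le_sum_abs _ _).trans (Finset.sum_le_sum fun k _ => ?_)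
      rw [abs_mul]
      exact mul_le_mul_of_nonneg_left (avg_bdd (fun w => hB _) N) (abs_nonneg _)
  have h3 := (avg_K (g := fun v => f (x v) ^ 2) ⟨B ^ 2, fun v => by
    rw [abs_pow]
    exact pow_le_pow_left₀ (abs_nonneg _) (hB _) 2⟩).mul_const (fm K F c)
  rw [zero_mul] at h3
  filter_upwards [h1, h2.eventually_lt_const (show (0 : ℝ) < η / 4 by positivity),
    h3.eventually_const_lt (show -(η / 4) < (0 : ℝ) by linarith)] with N h4 h5 h6
  have e : (fun u : HX K => (fun u : HX K => f (x (vx u))) u ^ 2) = fun u : HX K =>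
    (fun v => f (x v) ^ 2) (vx u) := rfl
  rw [sub_mul] at h6
  linarith

/-- **Bessel's inequality for disjoint extensions.** -/
theorem bss (hy : ∀ k, BaseChange x (y k)) (hf : Continuous f)
    (hcl : ∀ g h, f (h * g * h⁻¹) = f g)
    (hdis : ∀ i j, i ≠ j → numFields K (F i) (F j) = 1) {η : ℝ} (hη : 0 < η) :
    ∀ᶠ N in atTop, avg (fun v => f (x v)) N ^ 2 + ∑ k,
      (avg (fun w => f (y k w)) N - avg (fun v => f (x v)) N) ^ 2 /
        ((numFields K (F k) (F k) : ℝ) - 1) ≤ avg (fun v => f (x v) ^ 2) N + η := by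
  obtain ⟨B, hB⟩ := bdf hf
  have h1 := bessel (T := fun u : HX K => f (x (vx u))) (B := B) F (fun u => hB _) hdis
    (show 0 < η / 2 by positivity)
  have hK := avg_K (g := fun v => f (x v)) ⟨B, fun v => hB _⟩
  have h2 : Tendsto (fun N => (avg (fun v => f (x v)) N ^ 2 + ∑ k,
      (avg (fun w => f (y k w)) N - avg (fun v => f (x v)) N) ^ 2 /
        ((numFields K (F k) (F k) : ℝ) - 1)) -
      ((mH (fun u : HX K => f (x (vx u))) N) ^ 2 + ∑ k,
        (mH (fun u : HX K => f (x (vx u)) * cn K (F k) u) N -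
          mH (fun u : HX K => f (x (vx u))) N) ^ 2 /
      ((Nat.card (MaximalSpectrum (F k ⊗[K] F k)) : ℝ) - 1))) atTop (𝓝 0) := by
    have h3 : Tendsto (fun N => avg (fun v => f (x v)) N ^ 2 -
        (mH (fun u : HX K => f (x (vx u))) N) ^ 2) atTop (𝓝 0) :=
      sq_sub_tendsto hK fun N => avg_bdd (fun w => hB _) N
    have h4 : Tendsto (fun N => ∑ k, ((avg (fun w => f (y k w)) N -
        avg (fun v => f (x v)) N) ^ 2 - (mH (fun u : HX K => f (x (vx u)) * cn K (F k) u) N -
          mH (fun u : HX K => f (x (vx u))) N) ^ 2) /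
        ((Nat.card (MaximalSpectrum (F k ⊗[K] F k)) : ℝ) - 1)) atTop
        (𝓝 (∑ k : κ, 0 / ((Nat.card (MaximalSpectrum (F k ⊗[K] F k)) : ℝ) - 1))) := by
      refine tendsto_finsetSum _ fun k _ => Tendsto.div_const ?_ _
      refine sq_sub_tendsto (C := |B| + |B|) ?_ fun N => ?_
      · have h5 := (avg_bc (hy k) hf hcl).sub hK
        rw [sub_zero] at h5
        refine h5.congr fun N => ?_
        ring
      · exact (abs_sub _ _).trans (add_le_add (avg_bdd (fun w => hB _) N)
          (avg_bdd (fun w => hB _) N))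
    simp only [zero_div, Finset.sum_const_zero] at h4
    have h5 := h3.add h4
    rw [add_zero] at h5
    refine h5.congr fun N => ?_
    have e : ∀ a b c d : ℝ, a - b + (c - d) = a + c - (b + d) := fun a b c d => by ring
    rw [← e, ← Finset.sum_sub_distrib]
    congr 1
    refine Finset.sum_congr rfl fun k _ => ?_
    rw [sub_div]
    rfl
  have h3 := avg_K (g := fun v => f (x v) ^ 2) ⟨B ^ 2, fun v => by
    rw [abs_pow]
    exact pow_le_pow_left₀ (abs_nonneg _) (hB _) 2⟩
  filter_upwards [h1, h2.eventually_lt_const (show (0 : ℝ) < η / 4 by positivity),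
    h3.eventually_const_lt (show -(η / 4) < (0 : ℝ) by linarith)] with N h4 h5 h6
  linarith

end

section
variable {K : Type} [Field K] [NumberField K]
variable {G : Type} [Group G] [TopologicalSpace G] [CompactSpace G]
  {x : HeightOneSpectrum (𝓞 K) → G} {f : G → ℝ}
variable {F : Type} [Field F] [NumberField F] [Algebra K F] {y : HeightOneSpectrum (𝓞 F) → G}

theorem fixn_le' (σ : GK K) : (fixn K F σ : ℝ) ≤ Module.finrank K F := by
  have h1 : fixn K F σ ≤ Nat.card (F →ₐ[K] AlgebraicClosure K) := by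
    unfold Pool.Agent.W353.NF.fixn
    exact Nat.card_le_card_of_injective Subtype.val Subtype.val_injective
  have h2 : Nat.card (F →ₐ[K] AlgebraicClosure K) = Module.finrank K F := by
    rw [Nat.card_eq_fintype_card]
    exact AlgHom.card K F (AlgebraicClosure K)
  exact_mod_cast h1.trans h2.le

theorem cn_nonneg (u : HX K) : 0 ≤ cn K F u := by
  classical
  unfold cn push
  refine Finset.sum_nonneg fun ψ _ => ?_
  have : Fact (u.1 : ℕ).Prime := ⟨u.1.2⟩
  rw [Pool.Agent.W353.TP.qh_eq, map_one, map_one]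
  norm_num

/-- domination -/
theorem mH_dom {φ : HX K → ℝ} {B : ℝ} (hB : ∀ u, |φ u| ≤ B) (h0 : ∀ u, 0 ≤ φ u) {η : ℝ}
    (hη : 0 < η) : ∀ᶠ N in atTop, mH (fun u => φ u * cn K F u) N ≤
      Module.finrank K F * mH φ N + η := by
  classical
  obtain ⟨S, hS⟩ := push_fix K F
  choose σ hσ using Pool.Agent.W540.BE.exists_isFrob (F := K)
  have h1 := mH_congr_fin S (φ := fun u => φ u * cn K F u)
    (ψ := fun u => φ u * fixn K F (σ (vx u))) (B := B * (2 * Module.finrank ℚ F)) (fun u => by
      rw [← mul_sub, abs_mul]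
      refine mul_le_mul (hB u) ?_ (abs_nonneg _) ((abs_nonneg _).trans (hB u))
      refine (abs_sub _ _).trans ?_
      have h3 : |(fixn K F (σ (vx u)) : ℝ)| ≤ Module.finrank ℚ F := by
        rw [abs_of_nonneg (Nat.cast_nonneg _)]
        exact fixn_le _
      have h4 := cn_abs (K := K) (F := F) u
      linarith) (fun u hu => by
        have := hS u hu _ (hσ (vx u))
        unfold cn
        rw [this])
  filter_upwards [h1.eventually_lt_const hη] with N hN
  have h2 := mH_mono (φ := fun u => φ u * fixn K F (σ (vx u)))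
    (ψ := fun u => Module.finrank K F * φ u) (fun u => by
      rw [mul_comm]
      exact mul_le_mul_of_nonneg_right (fixn_le' _) (h0 u)) N
  rw [mH_smul] at h2
  linarith

theorem dom (hy : BaseChange x y) (hf : Continuous f) (hcl : ∀ g h, f (h * g * h⁻¹) = f g)
    (h0 : ∀ g, 0 ≤ f g) {η : ℝ} (hη : 0 < η) :
    ∀ᶠ N in atTop, avg (fun w => f (y w)) N ≤
      Module.finrank K F * avg (fun v => f (x v)) N + η := by
  obtain ⟨B, hB⟩ := bdf hf
  have h1 := avg_bc hy hf hcl
  have h2 := (avg_K (g := fun v => f (x v)) ⟨B, fun v => hB _⟩).const_mul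
    (Module.finrank K F : ℝ)
  rw [mul_zero] at h2
  filter_upwards [mH_dom (F := F) (φ := fun u : HX K => f (x (vx u))) (fun u => hB _)
    (fun u => h0 _) (show 0 < η / 2 by positivity),
    h1.eventually_lt_const (show (0 : ℝ) < η / 4 by positivity),
    h2.eventually_const_lt (show -(η / 4) < (0 : ℝ) by linarith)] with N h3 h4 h5
  rw [mul_sub] at h5
  linarith

/-- the rank is at most the degree -/
theorem rank_le : (numFields K F F : ℝ) ≤ Module.finrank K F := by
  have h1 := gram (K := K) (F := F) (F' := F)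
  have h2 := gram_one (K := K) (F := F)
  refine le_of_forall_pos_le_add fun η hη => ?_
  have h3 := mH_dom (F := F) (φ := cn K F) (fun u => cn_abs u) cn_nonneg
    (show 0 < η by positivity)
  have h4 := (h2.const_mul (Module.finrank K F : ℝ)).add_const η
  rw [mul_one] at h4
  exact le_of_tendsto_of_tendsto h1 h4 h3

theorem rank_pos : 1 ≤ numFields K F F := by
  have h1 : Nontrivial (F ⊗[K] F) := inferInstance
  obtain ⟨m, hm⟩ := Ideal.exists_maximal (F ⊗[K] F)
  have h2 : Nonempty (MaximalSpectrum (F ⊗[K] F)) := ⟨⟨m, hm⟩⟩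
  have h3 : Finite (MaximalSpectrum (F ⊗[K] F)) := by
    have : IsArtinianRing (F ⊗[K] F) := IsArtinianRing.of_finite F (F ⊗[K] F)
    infer_instance
  exact Nat.card_pos

end

section
variable {K : Type} [Field K] [NumberField K]
variable {G : Type} [Group G] [TopologicalSpace G] [CompactSpace G]
  [MeasurableSpace G] [OpensMeasurableSpace G] {μ : Measure G} [IsProbabilityMeasure μ]
  {x : HeightOneSpectrum (𝓞 K) → G}
variable {ι : Type} {F : ι → Type} [∀ k, Field (F k)] [∀ k, NumberField (F k)]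
  [∀ k, Algebra K (F k)] {y : ∀ k, HeightOneSpectrum (𝓞 (F k)) → G}
variable {F₀ : Type} [Field F₀] [NumberField F₀] [Algebra K F₀]
  {y₀ : HeightOneSpectrum (𝓞 F₀) → G}

variable (K F F₀) in
/-- the square of the distance -/
noncomputable def dist2 (S : Finset ι) (c : ι → ℝ) : ℝ :=
  (numFields K F₀ F₀ : ℝ) - 2 * ∑ i ∈ S, c i * (numFields K F₀ (F i) : ℝ) +
    ∑ i ∈ S, ∑ j ∈ S, c i * c j * (numFields K (F i) (F j) : ℝ)

theorem mH_dist (S : Finset ι) (c : ι → ℝ) :
    Tendsto (mH fun u : HX K => (cn K F₀ u - ∑ i ∈ S, c i * cn K (F i) u) ^ 2) atTop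
      (𝓝 (dist2 K F F₀ S c)) := by
  have h1 : Tendsto (fun Y => mH (fun u : HX K => cn K F₀ u * cn K F₀ u) Y -
      2 * ∑ i ∈ S, c i * mH (fun u : HX K => cn K F₀ u * cn K (F i) u) Y +
      ∑ i ∈ S, ∑ j ∈ S, c i * c j *
      mH (fun u : HX K => cn K (F i) u * cn K (F j) u) Y) atTop (𝓝 (dist2 K F F₀ S c)) :=
    (gram.sub ((tendsto_finsetSum _ fun i _ => gram.const_mul _).const_mul 2)).add
      (tendsto_finsetSum _ fun i _ => tendsto_finsetSum _ fun j _ => gram.const_mul _)
  refine h1.congr fun Y => ?_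
  have e1 : (fun u : HX K => (cn K F₀ u - ∑ i ∈ S, c i * cn K (F i) u) ^ 2) = fun u =>
      cn K F₀ u * cn K F₀ u + ((-2) * (∑ i ∈ S, c i * (cn K F₀ u * cn K (F i) u)) +
        ∑ i ∈ S, ∑ j ∈ S, (c i * c j) * (cn K (F i) u * cn K (F j) u)) := by
    funext u
    have e2 : (∑ i ∈ S, c i * cn K (F i) u) ^ 2 = ∑ i ∈ S, ∑ j ∈ S, (c i * c j) *
        (cn K (F i) u * cn K (F j) u) := by
      rw [sq, Finset.sum_mul_sum]
      exact Finset.sum_congr rfl fun i _ => Finset.sum_congr rfl fun j _ => by ring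
    have e3 : ∑ i ∈ S, c i * (cn K F₀ u * cn K (F i) u) =
        cn K F₀ u * ∑ i ∈ S, c i * cn K (F i) u := by
      rw [Finset.mul_sum]
      exact Finset.sum_congr rfl fun i _ => by ring
    rw [sub_sq, e2, e3]
    ring
  rw [e1, mH_add, mH_add, mH_smul, mH_sum, mH_sum]
  have e4 : ∀ i ∈ S, mH (fun u : HX K => c i * (cn K F₀ u * cn K (F i) u)) Y =
      c i * mH (fun u : HX K => cn K F₀ u * cn K (F i) u) Y := fun i _ => mH_smul _ _ _
  have e5 : ∀ i ∈ S, mH (fun u : HX K => ∑ j ∈ S, (c i * c j) *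
      (cn K (F i) u * cn K (F j) u)) Y = ∑ j ∈ S, c i * c j *
        mH (fun u : HX K => cn K (F i) u * cn K (F j) u) Y := by
    intro i _
    rw [mH_sum]
    exact Finset.sum_congr rfl fun j _ => mH_smul _ _ _
  rw [Finset.sum_congr rfl e4, Finset.sum_congr rfl e5]
  ring

/-- **Descent.** -/
theorem descent (hy : ∀ k, BaseChange x (y k)) (hST : ∀ k, Equidistributed (y k) μ)
    (hy₀ : BaseChange x y₀)
    (hd : ∀ ε : ℝ, 0 < ε → ∃ (S : Finset ι) (c : ι → ℝ), dist2 K F F₀ S c < ε) :
    Equidistributed y₀ μ := by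
  classical
  intro f hf hcl
  set I : ℝ := ∫ g, f g ∂μ with hI
  obtain ⟨B, hB⟩ := bdf hf
  have hB0 : 0 ≤ B := by
    by_contra hcon
    have h1 := hB 1
    have h2 := abs_nonneg (f 1)
    linarith
  set f' : G → ℝ := fun g => f g - I with hf'
  have hf'c : Continuous f' := hf.sub continuous_const
  have hcl' : ∀ g h, f' (h * g * h⁻¹) = f' g := fun g h => by
    simp only [hf']
    rw [hcl]
  have hB' : ∀ g, |f' g| ≤ B + |I| := fun g => by
    refine (abs_sub _ _).trans (add_le_add (hB g) le_rfl)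
  have hshift : ∀ {L : Type} [Field L] [NumberField L] (z : HeightOneSpectrum (𝓞 L) → G),
      Tendsto (fun N => avg (fun w => f' (z w)) N - (avg (fun w => f (z w)) N - I)) atTop
        (𝓝 0) := by
    intro L _ _ z
    refine tendsto_const_nhds.congr' ?_
    have h1 : ∀ᶠ N in atTop, 0 < ((VX L N).card : ℝ) := by
      have h2 : Tendsto (fun X : ℕ => ((VX L X).card : ℝ) / pc X) atTop (𝓝 1) :=
        Pool.Agent.H126U.card_VX
      filter_upwards [h2.eventually_const_lt (show (0 : ℝ) < 1 by norm_num)] with N hN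
      by_contra hcon
      have h3 : ((VX L N).card : ℝ) = 0 := le_antisymm (not_lt.1 hcon) (Nat.cast_nonneg _)
      rw [h3, zero_div] at hN
      exact lt_irrefl _ hN
    filter_upwards [h1] with N hN
    rw [avg_eq, avg_eq]
    simp only [hf']
    rw [Finset.sum_sub_distrib, sub_div, Finset.sum_const, nsmul_eq_mul,
      mul_div_cancel_left₀ _ hN.ne', sub_self]
  -- the averages of `f'` over the extensions of the family
  have h1 : ∀ k, Tendsto (avg fun w => f' (y k w)) atTop (𝓝 0) := by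
    intro k
    have h2 := (hshift (y k)).add ((hST k f hf hcl).sub_const I)
    rw [← hI, sub_self, add_zero] at h2
    refine h2.congr fun N => ?_
    ring
  suffices h : Tendsto (avg fun w => f' (y₀ w)) atTop (𝓝 0) by
    have h2 := (h.sub (hshift y₀)).add_const I
    rw [sub_zero, zero_add] at h2
    refine h2.congr fun N => ?_
    ring
  rw [Metric.tendsto_atTop]
  intro δ hδ
  set C : ℝ := (B + |I|) ^ 2 * 2 + 1 with hC
  have hC0 : 0 < C := by positivity
  obtain ⟨S, c, hSc⟩ := hd ((δ / 2) ^ 2 / (2 * C)) (by positivity)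
  have h3 := ineqW (T := fun u : HX K => f' (x (vx u))) (B := B + |I|) (fun u => hB' _)
    (mH_dist (F := F) (F₀ := F₀) S c) (show 0 < (δ / 2) ^ 2 / 4 by positivity)
  have h4 : Tendsto (fun N => mH (fun u : HX K => f' (x (vx u)) *
      (cn K F₀ u - ∑ i ∈ S, c i * cn K (F i) u)) N - avg (fun w => f' (y₀ w)) N) atTop
      (𝓝 0) := by
    have h5 : Tendsto (fun N => ∑ i ∈ S, c i *
        mH (fun u : HX K => f' (x (vx u)) * cn K (F i) u) N) atTop (𝓝 (∑ i ∈ S, c i * 0)) := by
      refine tendsto_finsetSum _ fun i _ => Tendsto.const_mul (c i) ?_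
      have h6 := (h1 i).sub (avg_bc (hy i) hf'c hcl')
      rw [sub_zero] at h6
      refine h6.congr fun N => ?_
      ring
    simp only [mul_zero, Finset.sum_const_zero] at h5
    have h6 := ((avg_bc hy₀ hf'c hcl').neg).sub h5
    rw [neg_zero, sub_zero] at h6
    refine h6.congr fun N => ?_
    have e1 : (fun u : HX K => f' (x (vx u)) * (cn K F₀ u - ∑ i ∈ S, c i * cn K (F i) u)) =
        fun u => f' (x (vx u)) * cn K F₀ u + (-1) * ∑ i ∈ S, c i *
          (f' (x (vx u)) * cn K (F i) u) := by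
      funext u
      have e2 : ∑ i ∈ S, c i * (f' (x (vx u)) * cn K (F i) u) =
          f' (x (vx u)) * ∑ i ∈ S, c i * cn K (F i) u := by
        rw [Finset.mul_sum]
        exact Finset.sum_congr rfl fun i _ => by ring
      rw [e2]
      ring
    rw [e1, mH_add, mH_smul, mH_sum]
    have e3 : ∀ i ∈ S, mH (fun u : HX K => c i * (f' (x (vx u)) * cn K (F i) u)) N =
        c i * mH (fun u : HX K => f' (x (vx u)) * cn K (F i) u) N := fun i _ => mH_smul _ _ _
    rw [Finset.sum_congr rfl e3]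
    ring
  have h7 : ∀ᶠ N in atTop, mH (fun u : HX K => f' (x (vx u)) ^ 2) N ≤ C := by
    filter_upwards [mH_bdd (φ := fun u : HX K => f' (x (vx u)) ^ 2) (B := (B + |I|) ^ 2)
      (fun u => by
        rw [abs_pow]
        exact pow_le_pow_left₀ (abs_nonneg _) (hB' _) 2)] with N hN
    have h8 := (le_abs_self _).trans hN
    rw [abs_of_nonneg (sq_nonneg (B + |I|))] at h8
    rw [hC]
    linarith
  have h9 := h4.abs
  rw [abs_zero] at h9
  have key : ∀ᶠ N in atTop, |avg (fun w => f' (y₀ w)) N| < δ := by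
    filter_upwards [h3, h7, h9.eventually_lt_const (show (0 : ℝ) < δ / 4 by positivity)] with
      N a1 a2 a3
    have a0 : 0 ≤ mH (fun u : HX K => f' (x (vx u)) ^ 2) N := by
      have := mH_mono (φ := fun _ => 0) (ψ := fun u : HX K => f' (x (vx u)) ^ 2)
        (fun u => sq_nonneg _) N
      have h0 : mH (fun _ : HX K => (0 : ℝ)) N = 0 := by
        unfold mH
        rw [Finset.sum_const_zero, zero_div]
      rwa [h0] at this
    have a4 : mH (fun u : HX K => f' (x (vx u)) ^ 2) N * dist2 K F F₀ S c ≤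
        (δ / 2) ^ 2 / 2 := by
      refine (mul_le_mul_of_nonneg_left hSc.le a0).trans ?_
      refine (mul_le_mul_of_nonneg_right a2 (by positivity)).trans (le_of_eq ?_)
      field_simp
    have a5 : (mH (fun u : HX K => f' (x (vx u)) *
      (cn K F₀ u - ∑ i ∈ S, c i * cn K (F i) u)) N) ^ 2 < (δ / 2) ^ 2 := by
      have a6 : 0 < (δ / 2) ^ 2 := by positivity
      linarith
    have a6 := abs_lt_of_sq_lt_sq a5 (by positivity)
    have a7 : avg (fun w => f' (y₀ w)) N = mH (fun u : HX K => f' (x (vx u)) *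
      (cn K F₀ u - ∑ i ∈ S, c i * cn K (F i) u)) N - (mH (fun u : HX K => f' (x (vx u)) *
      (cn K F₀ u - ∑ i ∈ S, c i * cn K (F i) u)) N - avg (fun w => f' (y₀ w)) N) := by ring
    rw [a7]
    refine (abs_sub _ _).trans_lt ?_
    linarith
  obtain ⟨N, hN⟩ := eventually_atTop.1 key
  refine ⟨N, fun n hn => ?_⟩
  rw [Real.dist_eq, sub_zero]
  exact hN n hn

end

end Pool.Agent.Q11.ST
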